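import Mathlib

/-! Lower bound for graphs with the pairing property. -/

namespace Pool.Agent.H.MP_7e7d68_co
open Finset Real Classical

variable {A B : Type} [Fintype A] [Fintype B]

lemma cover {n : ℕ} (G : A → Finset B) (e0 : Fin n × Bool ≃ A)
    (h : ∀ e : Fin n × Bool ≃ A, ∃ k : Fin n → B, k.Injective ∧ ∀ s β, k s ∈ G (e (s, β)))
    (T : Finset B) : ∃ C : Finset A, C.card ≤ 2 * T.card ∧
      ∀ a a', a ≠ a' → G a ∩ G a' ⊆ T → a ∈ C ∨ a' ∈ C := by
  let L : (Fin n × Bool ≃ A) → Finset (Fin n) := fun e =>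
    univ.filter fun s => G (e (s, false)) ∩ G (e (s, true)) ⊆ T
  obtain ⟨e, -, mx⟩ := exists_max_image univ (fun e => (L e).card) ⟨e0, mem_univ _⟩
  obtain ⟨k, k1, k2⟩ := h e
  have c : (L e).card ≤ T.card := card_le_card_of_injOn k
    (fun s hs => (mem_filter.mp hs).2 (mem_inter.mpr ⟨k2 _ _, k2 _ _⟩)) k1.injOn
  refine ⟨(L e ×ˢ univ).image e, card_image_le.trans (by simp; omega), fun a a' n s => ?_⟩
  by_contra! hc
  obtain ⟨⟨s0, β⟩, rfl⟩ := e.surjective a
  have m : ∀ s ∈ L e, ∀ γ, e (s, γ) ∈ (L e ×ˢ univ).image e := fun s hs γ =>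
    mem_image_of_mem _ (by simp [hs])
  have n0 : s0 ∉ L e := fun h => hc.1 (m _ h _)
  refine (mx (e.trans (Equiv.swap (e (s0, !β)) a')) (mem_univ _)).not_gt (card_lt_card
    ((ssubset_iff_of_subset fun t ht => ?_).mpr ⟨s0, ?_, n0⟩))
  · have : ∀ γ, Equiv.swap (e (s0, !β)) a' (e (t, γ)) = e (t, γ) := fun γ =>
      Equiv.swap_apply_of_ne_of_ne (fun q => n0 ((Prod.mk.inj (e.injective q)).1 ▸ ht))
        fun q => hc.2 (q ▸ m t ht γ)
    simpa [L, this] using ht
  · have : Equiv.swap (e (s0, !β)) a' (e (s0, β)) = e (s0, β) :=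
      Equiv.swap_apply_of_ne_of_ne (by simp) n
    cases β
    · simp only [Bool.not_false] at this
      simpa [L, this] using s
    · simp only [Bool.not_true] at this
      simpa [L, this, inter_comm] using s

lemma expect (x : B → ℝ) (S : Finset B) :
    ∑ T : Finset B, ((∏ b ∈ T, x b) * ∏ b ∈ Tᶜ, (1 - x b)) * (if S ⊆ T then 1 else 0) =
      ∏ b ∈ S, x b := by
  have := Fintype.prod_add x fun b => if b ∈ S then 0 else 1 - x b
  rw [show ∏ b, (x b + if b ∈ S then 0 else 1 - x b) = ∏ b ∈ S, x b by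
    rw [← prod_ite_mem_eq S]; exact prod_congr rfl fun b _ => by split_ifs <;> ring] at this
  rw [this]
  refine sum_congr rfl fun T _ => ?_
  split_ifs with h
  · rw [mul_one]
    exact congrArg _ (prod_congr rfl fun b hb => (if_neg fun k => mem_compl.mp hb (h k)).symm)
  · obtain ⟨b, h1, h2⟩ := not_subset.mp h
    rw [mul_zero, prod_eq_zero (f := fun b => if b ∈ S then (0 : ℝ) else 1 - x b)
      (mem_compl.mpr h2) (if_pos h1), mul_zero]

lemma dbl (G : A → Finset B) (U : Finset B) (y : B → ℝ) :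
    ∑ a, ∑ a', ∑ b ∈ U, (if b ∈ G a ∧ b ∈ G a' then y b else 0) =
      ∑ b ∈ U, ((univ.filter fun a => b ∈ G a).card : ℝ) ^ 2 * y b := by
  rw [sum_congr rfl fun a _ => sum_comm, sum_comm]
  refine sum_congr rfl fun b _ => ?_
  rw [card_filter, Nat.cast_sum, sq, sum_mul_sum]
  simp only [sum_mul]
  refine sum_congr rfl fun a _ => sum_congr rfl fun a' _ => ?_
  by_cases h : b ∈ G a <;> by_cases h' : b ∈ G a' <;> simp [h, h']

lemma pt (w : A → A → ℝ) (w0 : ∀ a a', 0 ≤ w a a') (ws : ∀ a a', w a a' = w a' a) (C : Finset A)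
    (hc : ∀ a a', a ∉ C → a' ∉ C → w a a' = 0) {N : ℝ} (N0 : 0 < N) :
    ∑ a, ∑ a', w a a' ≤ 8 * N * C.card + (∑ a, (∑ a', w a a') ^ 2) / (8 * N) := by
  have k1 : ∑ a, ∑ a', w a a' ≤ ∑ a, ∑ a', ((if a ∈ C then w a a' else 0) +
      if a' ∈ C then w a' a else 0) := sum_le_sum fun a _ => sum_le_sum fun a' _ => by
    rw [ws a' a]
    have := w0 a a'
    split_ifs with h h' h'
    · linarith
    · linarith
    · linarith
    · linarith [hc a a' h h']
  simp only [sum_add_distrib] at k1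
  rw [sum_comm (f := fun a a' => if a' ∈ C then w a' a else 0)] at k1
  have k2 : ∑ a, ∑ a', (if a ∈ C then w a a' else 0) ≤
      ∑ a, ((if a ∈ C then 4 * N else 0) + (∑ a', w a a') ^ 2 / (16 * N)) :=
    sum_le_sum fun a _ => by
      split_ifs
      · rw [← sub_le_iff_le_add', le_div_iff₀ (by linarith)]
        nlinarith [sq_nonneg (∑ a', w a a' - 8 * N)]
      · rw [sum_const_zero]; positivity
  rw [sum_add_distrib, sum_ite_mem_eq, sum_const, nsmul_eq_mul, ← sum_div] at k2
  have : (∑ a, (∑ a', w a a') ^ 2) / (8 * N) = 2 * ((∑ a, (∑ a', w a a') ^ 2) / (16 * N)) := by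
    field_simp; ring
  linarith

theorem lower (G : A → Finset B) {d Y : ℝ} (d0 : 0 < d) (Y1 : 1 < Y) (hd : ∀ a, (G a).card ≤ d)
    (cov : ∀ T : Finset B, ∃ C : Finset A, C.card ≤ 2 * T.card ∧
      ∀ a a', a ≠ a' → G a ∩ G a' ⊆ T → a ∈ C ∨ a' ∈ C) (N4 : 4 ≤ Fintype.card A)
    (h1 : Y * (d * (128 * d) ^ 2) ≤ (Fintype.card A : ℝ) ^ 2)
    (h2 : 128 * d * d ≤ Fintype.card A * log Y / 4) : False := by
  obtain ⟨N, hN⟩ : ∃ N : ℝ, N = Fintype.card A := ⟨_, rfl⟩
  rw [← hN] at h1 h2
  have N4' : 4 ≤ N := by rw [hN]; exact_mod_cast N4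
  let D : B → ℝ := fun b => (univ.filter fun a => b ∈ G a).card
  have D0 : ∀ b, 0 ≤ D b := fun b => by positivity
  have sD : ∑ b, D b ≤ N * d := by
    simp only [D, card_filter, Nat.cast_sum]
    rw [sum_comm, hN, ← card_univ, ← nsmul_eq_mul]
    exact sum_le_card_nsmul _ _ _ fun a _ => by simpa using hd a
  let x : B → ℝ := fun b => min 1 (D b / (128 * d))
  have x0 : ∀ b, 0 ≤ x b := fun b => le_min zero_le_one (div_nonneg (D0 b) (by positivity))
  have x1 : ∀ b, x b ≤ 1 := fun b => min_le_left _ _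
  let p : Finset B → ℝ := fun T => (∏ b ∈ T, x b) * ∏ b ∈ Tᶜ, (1 - x b)
  have p0 : ∀ T, 0 ≤ p T := fun T =>
    mul_nonneg (prod_nonneg fun b _ => x0 b) (prod_nonneg fun b _ => by linarith [x1 b])
  let P : A → A → ℝ := fun a a' => ∏ b ∈ G a ∩ G a', x b
  let g : A → A → Prop := fun a a' => a ≠ a' ∧ 1 ≤ Y * P a a'
  have P0 : ∀ a a', g a a' → 0 < P a a' := fun a a' h => by nlinarith [h.2]
  let w : Finset B → A → A → ℝ := fun T a a' =>
    (if g a a' then (P a a')⁻¹ else 0) * if G a ∩ G a' ⊆ T then 1 else 0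
  have w0 : ∀ T a a', 0 ≤ w T a a' := fun T a a' => mul_nonneg
    (by split_ifs with h; exacts [inv_nonneg.mpr (P0 a a' h).le, le_rfl]) (by split_ifs <;> norm_num)
  have pt : ∀ T, ∑ a, ∑ a', w T a a' ≤ 16 * N * T.card + (∑ a, (∑ a', w T a a') ^ 2) / (8 * N) := by
    intro T
    obtain ⟨C, c1, c2⟩ := cov T
    have c3 : (C.card : ℝ) ≤ 2 * T.card := by exact_mod_cast c1
    have := pt (w T) (w0 T) (fun a a' => by simp only [w, g, P, inter_comm (G a), ne_comm (a := a)])
      C (fun a a' h h' => by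
        simp only [w]
        split_ifs with u v
        · exact ((c2 a a' u.1 v).elim h h').elim
        all_goals simp) (N := N) (by linarith)
    nlinarith
  have e1 : ∀ a a', ∑ T, p T * w T a a' = if g a a' then 1 else 0 := fun a a' => by
    simp only [w, mul_left_comm (p _), ← mul_sum, p, expect]
    split_ifs with h
    · exact inv_mul_cancel₀ (P0 a a' h).ne'
    · simp
  have e2 : ∑ T, p T * T.card ≤ N / 128 := by
    have : ∀ T : Finset B, (T.card : ℝ) = ∑ b, if {b} ⊆ T then 1 else 0 := fun T => by simp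
    simp only [this, mul_sum]
    rw [sum_comm]
    simp only [p, expect, prod_singleton]
    refine (sum_le_sum fun b _ => min_le_right _ _).trans ?_
    rw [← sum_div, div_le_div_iff₀ (by positivity) (by norm_num)]
    linarith
  have e3 : ∀ a a' a'', ∑ T, p T * (w T a a' * w T a a'') ≤ 1 +
      ∑ b ∈ (G a).filter (D · < 128 * d), if b ∈ G a' ∧ b ∈ G a'' then Y else 0 := by
    intro a a' a''
    have z : 0 ≤ ∑ b ∈ (G a).filter (D · < 128 * d), if b ∈ G a' ∧ b ∈ G a'' then Y else 0 :=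
      sum_nonneg fun b _ => by split_ifs <;> linarith
    by_cases h : g a a' ∧ g a a''
    swap
    · have : ∀ T, w T a a' * w T a a'' = 0 := fun T => by
        rcases not_and_or.mp h with h | h <;> simp [w, h]
      simp only [this, mul_zero, sum_const_zero]
      linarith
    have : ∀ T, w T a a' * w T a a'' = (P a a' * P a a'')⁻¹ *
        if G a ∩ G a' ∪ G a ∩ G a'' ⊆ T then 1 else 0 := fun T => by
      simp only [w, h.1, h.2, if_true, union_subset_iff, mul_inv]
      split_ifs <;> simp_all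
    simp only [this, mul_left_comm (p _), ← mul_sum, p, expect]
    have q := mul_pos (P0 _ _ h.1) (P0 _ _ h.2)
    have u : (∏ b ∈ G a ∩ G a' ∪ G a ∩ G a'', x b) * ∏ b ∈ G a ∩ G a' ∩ (G a ∩ G a''), x b =
      P a a' * P a a'' := prod_union_inter
    have u0 : 0 ≤ ∏ b ∈ G a ∩ G a' ∪ G a ∩ G a'', x b := prod_nonneg fun b _ => x0 b
    rw [inv_mul_le_iff₀ q, ← u, mul_assoc]
    refine le_mul_of_one_le_right u0 ?_
    by_cases k : ∃ b ∈ G a ∩ G a' ∩ (G a ∩ G a''), D b < 128 * d
    · obtain ⟨b, k1, k2⟩ := k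
      simp only [mem_inter] at k1
      have v1 : P a a' ≤ ∏ b ∈ G a ∩ G a' ∩ (G a ∩ G a''), x b :=
        prod_le_prod_of_subset_of_le_one inter_subset_left (fun b _ => x0 b) fun b _ _ => x1 b
      have v2 := single_le_sum (f := fun b => if b ∈ G a' ∧ b ∈ G a'' then Y else 0)
        (fun b _ => by split_ifs <;> linarith)
        (show b ∈ (G a).filter (D · < 128 * d) from mem_filter.mpr ⟨k1.1.1, k2⟩)
      simp only [k1.1.2, k1.2.2, and_self, if_true] at v2
      nlinarith [h.1.2, P0 _ _ h.1]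
    · push Not at k
      rw [prod_eq_one fun b hb => min_eq_left ((one_le_div (by positivity)).mpr (k b hb))]
      linarith
  have e4 : ∀ a, ∑ T, p T * (∑ a', w T a a') ^ 2 ≤ 2 * N ^ 2 := fun a => by
    simp only [sq (∑ a', w _ a a'), sum_mul_sum]
    simp only [mul_sum]
    rw [sum_comm]
    refine (sum_le_sum fun a' _ => sum_comm.le.trans (sum_le_sum fun a'' _ => e3 a a' a'')).trans ?_
    simp only [sum_add_distrib, dbl, sum_const, card_univ, nsmul_eq_mul, ← hN]
    have := sum_le_card_nsmul ((G a).filter (D · < 128 * d)) (fun b => D b ^ 2 * Y)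
      ((128 * d) ^ 2 * Y) fun b hb => mul_le_mul_of_nonneg_right
        (pow_le_pow_left₀ (D0 b) (mem_filter.mp hb).2.le _) (by linarith)
    have c : (((G a).filter (D · < 128 * d)).card : ℝ) ≤ d :=
      le_trans (by exact_mod_cast card_filter_le _ _) (hd a)
    rw [nsmul_eq_mul] at this
    have := this.trans (mul_le_mul_of_nonneg_right c (by positivity))
    simp only [D] at this
    nlinarith
  have f1 := sum_le_sum fun T (_ : T ∈ univ) => mul_le_mul_of_nonneg_left (pt T) (p0 T)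
  simp only [mul_add, sum_add_distrib, mul_left_comm (p _), ← mul_div_assoc, ← mul_sum,
    ← sum_div] at f1
  simp only [mul_sum] at f1
  rw [sum_comm, sum_congr rfl fun a _ => sum_comm, sum_comm (f := fun T a => p T * _ ^ 2),
    ← mul_sum] at f1
  simp only [e1] at f1
  have f2 : (∑ a, ∑ T, p T * (∑ a', w T a a') ^ 2) / (8 * N) ≤ N ^ 2 / 4 := by
    have := sum_le_card_nsmul univ _ _ fun a _ => e4 a
    rw [card_univ, nsmul_eq_mul, ← hN] at this
    rw [div_le_iff₀ (by linarith)]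
    nlinarith
  have l0 := log_pos Y1
  have f3 : ∑ a, ∑ a', log Y ≤ ∑ a, ∑ a', (log Y * ((if g a a' then 1 else 0) +
      if a = a' then 1 else 0) + ∑ b, if b ∈ G a ∧ b ∈ G a' then 128 * d / D b else 0) :=
    sum_le_sum fun a _ => sum_le_sum fun a' _ => by
      have z : 0 ≤ ∑ b, if b ∈ G a ∧ b ∈ G a' then 128 * d / D b else 0 :=
        sum_nonneg fun b _ => by have := D0 b; split_ifs <;> positivity
      split_ifs with u v v
      · linarith
      · linarith
      · linarith
      simp only [← mem_inter, sum_ite_mem_eq, add_zero, mul_zero, zero_add]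
      have k : exp (∑ b ∈ G a ∩ G a', -(128 * d / D b)) ≤ P a a' := by
        rw [exp_sum]
        refine prod_le_prod (fun _ _ => (exp_pos _).le) fun b hb => le_min
          (exp_le_one_iff.mpr (by have := D0 b; simp; positivity)) ?_
        have : 0 < D b := Nat.cast_pos.mpr (card_pos.mpr ⟨a, by simp [(mem_inter.mp hb).1]⟩)
        rw [exp_neg, ← inv_div (128 * d)]
        exact inv_anti₀ (by positivity) (by linarith [add_one_le_exp (128 * d / D b)])
      rw [sum_neg_distrib, exp_neg, inv_le_iff_one_le_mul₀ (exp_pos _)] at k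
      rw [log_le_iff_le_exp (by linarith)]
      have := not_le.mp (not_and.mp u v)
      have := exp_pos (∑ b ∈ G a ∩ G a', 128 * d / D b)
      nlinarith
  simp only [sum_add_distrib, ← mul_sum, dbl, sum_const, card_univ, nsmul_eq_mul, ← hN,
    sum_ite_eq, mem_univ, if_true, mul_one] at f3
  have f4 : ∑ b, D b ^ 2 * (128 * d / D b) ≤ 128 * d * (N * d) := by
    refine le_trans (le_of_eq ?_) (mul_le_mul_of_nonneg_left sD (by positivity))
    rw [mul_sum]
    refine sum_congr rfl fun b _ => ?_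
    rcases (D0 b).eq_or_lt with e | e
    · simp [← e]
    · field_simp
  simp only [D] at f4
  have f5 : ∑ a, ∑ a', (if g a a' then (1 : ℝ) else 0) ≤ 3 / 8 * N ^ 2 := by nlinarith
  have f6 : log Y * (N * N) ≤ log Y * (3 / 8 * N ^ 2 + N + N * N / 4) := by nlinarith
  have := le_of_mul_le_mul_left f6 l0
  nlinarith

end Pool.Agent.H.MP_7e7d68_co
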