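import Mathlib

/-! A random graph with the pairing property. -/

namespace Pool.Agent.H.MP_7e7d68_co
open Finset Real Classical

lemma pairs {A Ω : Type} [Fintype A] [Fintype Ω] {t : ℕ} (w : Fin t × Bool → A) (i : w.Injective)
    (R : Finset (Ω × Ω)) (F : Finset (A → Ω))
    (hF : ∀ f ∈ F, ∀ s, (f (w (s, false)), f (w (s, true))) ∈ R) : F.card * (Fintype.card Ω ^ 2) ^ t ≤ R.card ^ t * Fintype.card Ω ^ Fintype.card A := by
  have c : Fintype.card {a // a ∉ Set.range w} + 2 * t = Fintype.card A := by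
    have := Fintype.card_le_of_injective w i
    rw [Fintype.card_subtype_compl, Set.card_range_of_injective i]
    simp only [Fintype.card_prod, Fintype.card_fin, Fintype.card_bool] at this ⊢
    omega
  rw [← c, pow_add, ← pow_mul, ← mul_assoc]
  refine Nat.mul_le_mul_right _ (le_trans (card_le_card_of_injOn
    (t := (Fintype.piFinset fun _ => R) ×ˢ (univ : Finset ({a // a ∉ Set.range w} → Ω)))
    (fun f => (fun s => (f (w (s, false)), f (w (s, true))), fun a => f a))
    (fun f hf => by simpa using hF f hf) fun f _ g _ h => funext fun a => ?_) (by simp))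
  obtain ⟨h1, h2⟩ := Prod.mk.inj h
  by_cases k : a ∈ Set.range w
  · obtain ⟨⟨s, β⟩, rfl⟩ := k
    have := Prod.mk.inj (congrFun h1 s)
    cases β
    exacts [this.1, this.2]
  · exact congrFun h2 ⟨a, k⟩

lemma agree {d k : ℕ} (k0 : 0 < k) (T : Finset (Fin d × Fin k)) :
    ((univ.filter fun u : (Fin d → Fin k) × (Fin d → Fin k) =>
      ∀ i, u.1 i = u.2 i → (i, u.1 i) ∈ T).card : ℝ) ≤
        ((k : ℝ) ^ d) ^ 2 * exp (-((d * k - T.card) / k ^ 2)) := by
  have k1 : (0 : ℝ) < k := by exact_mod_cast k0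
  have h1 := card_le_card_of_injOn (s := univ.filter fun u : (Fin d → Fin k) × (Fin d → Fin k) =>
      ∀ i, u.1 i = u.2 i → (i, u.1 i) ∈ T) (t := Fintype.piFinset fun i =>
        ((univ.filter fun x => (i, x) ∉ T).image fun x : Fin k => (x, x))ᶜ)
    (fun u i => (u.1 i, u.2 i)) (fun u hu => by
      simp only [coe_filter, mem_univ, true_and, Set.mem_setOf_eq, Fintype.coe_piFinset, Set.mem_pi,
        Set.mem_univ, mem_coe, mem_compl, mem_image, mem_filter, forall_true_left] at hu ⊢
      rintro i ⟨x, h1, h2⟩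
      obtain ⟨rfl, h3⟩ := Prod.mk.inj h2
      exact h1 (hu i h3))
    fun u _ v _ h => Prod.ext (funext fun i => (Prod.mk.inj (congrFun h i)).1)
      (funext fun i => (Prod.mk.inj (congrFun h i)).2)
  refine le_trans (Nat.cast_le.mpr h1) ?_
  have h2 : ((d : ℝ) * k - T.card) = ∑ i, ((univ.filter fun x => (i, x) ∉ T).card : ℝ) := by
    have := card_compl T
    have c := card_le_univ T
    simp only [Fintype.card_prod, Fintype.card_fin] at this c
    rw [← Nat.cast_mul, ← Nat.cast_sub c, ← this, ← Nat.cast_sum]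
    simp only [card_filter]
    rw [← Fintype.sum_prod_type', ← card_filter]
    congr 2
    ext x
    simp
  rw [Fintype.card_piFinset, Nat.cast_prod, h2, sum_div, ← sum_neg_distrib, exp_sum, ← pow_mul,
    mul_comm d, pow_mul, ← Fin.prod_const, ← prod_mul_distrib]
  refine prod_le_prod (fun _ _ => by positivity) fun i _ => ?_
  have c := card_le_univ ((univ.filter fun x => (i, x) ∉ T).image fun x : Fin k => (x, x))
  rw [card_compl, Nat.cast_sub c, card_image_of_injective _ fun _ _ h => (Prod.mk.inj h).1]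
  have := mul_le_mul_of_nonneg_left
    (add_one_le_exp (-(((univ.filter fun x => (i, x) ∉ T).card : ℝ) / k ^ 2))) (sq_nonneg (k : ℝ))
  rw [mul_add, mul_neg, mul_div_cancel₀ _ (by positivity)] at this
  simp only [Fintype.card_prod, Fintype.card_fin]
  push_cast
  linarith

theorem upper {n d k : ℕ} (k0 : 0 < k) (d0 : 0 < d) (n0 : 0 < n)
    (h : 2 * n * ((2 * n : ℝ) ^ 2 * (d * k) * exp (-((d * k - n) / k ^ 2))) ≤ 1) :
    ∃ G : Fin (2 * n) → Finset (Fin d × Fin k), (∀ a, (G a).card ≤ d) ∧
      ∀ e : Fin n × Bool ≃ Fin (2 * n), ∃ κ : Fin n → Fin d × Fin k, κ.Injective ∧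
        ∀ s β, κ s ∈ G (e (s, β)) := by
  let E : ∀ t : ℕ, (Fin t × Bool → Fin (2 * n)) × (Fin t → Fin d × Fin k) →
      Finset (Fin (2 * n) → Fin d → Fin k) := fun t c => univ.filter fun f => c.1.Injective ∧
    ∀ s, (f (c.1 (s, false)), f (c.1 (s, true))) ∈ univ.filter
      fun u : (Fin d → Fin k) × (Fin d → Fin k) => ∀ i, u.1 i = u.2 i → (i, u.1 i) ∈ univ.image c.2
  have k1 : (0 : ℝ) < k := by exact_mod_cast k0
  have n1 : (1 : ℝ) ≤ n := by exact_mod_cast n0
  set q := exp (-((d * k - n : ℝ) / k ^ 2))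
  have q0 : 0 < q := exp_pos _
  have c1 : ∀ t ≤ n, ∀ c, ((E t c).card : ℝ) ≤ q ^ t * (k ^ d) ^ (2 * n) := fun t ht c => by
    rcases (E t c).eq_empty_or_nonempty with e | ⟨f, hf⟩
    · rw [e, card_empty, Nat.cast_zero]; positivity
    have i := (mem_filter.mp hf).2.1
    have h1 := (Nat.cast_le (α := ℝ)).mpr (pairs c.1 i (univ.filter
      fun u : (Fin d → Fin k) × (Fin d → Fin k) => ∀ i, u.1 i = u.2 i → (i, u.1 i) ∈ univ.image c.2)
      (E t c) fun f hf => (mem_filter.mp hf).2.2)
    have h2 := (agree k0 (univ.image c.2)).trans (mul_le_mul_of_nonneg_left (exp_le_exp.mpr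
      (show _ ≤ -((d * k - n : ℝ) / k ^ 2) by
        have : ((univ.image c.2).card : ℝ) ≤ n := by
          exact_mod_cast card_image_le.trans (by simpa using ht)
        gcongr)) (by positivity))
    simp only [Fintype.card_fun, Fintype.card_fin] at h1
    push_cast at h1
    have h3 := mul_le_mul_of_nonneg_right (pow_le_pow_left₀ (by positivity) h2 t)
      (show (0 : ℝ) ≤ (k ^ d) ^ (2 * n) by positivity)
    rw [mul_pow, mul_assoc, mul_comm ((((k : ℝ) ^ d) ^ 2) ^ t)] at h3
    exact le_of_mul_le_mul_right (h1.trans h3) (pow_pos (pow_pos (pow_pos k1 _) _) _)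
  obtain ⟨f, hf⟩ : ∃ f, f ∉ (Icc 1 n).biUnion fun t => univ.biUnion (E t) := by
    by_contra! hc
    have h1 := (Nat.cast_le (α := ℝ)).mpr ((card_le_card fun f (_ : f ∈ univ) => hc f).trans
      (card_biUnion_le.trans (sum_le_sum fun t _ => card_biUnion_le)))
    simp only [card_univ, Fintype.card_fun, Fintype.card_fin] at h1
    push_cast at h1
    set ρ := (2 * n : ℝ) ^ 2 * (d * k) * q
    have r0 : 0 ≤ ρ := by positivity
    have h2 := sum_le_card_nsmul (Icc 1 n) (fun t => ∑ c, ((E t c).card : ℝ))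
      (ρ * (k ^ d) ^ (2 * n)) fun t ht => by
        rw [mem_Icc] at ht
        refine (sum_le_card_nsmul _ _ _ fun c _ => c1 t ht.2 c).trans ?_
        simp only [card_univ, Fintype.card_fun, Fintype.card_fin, Fintype.card_prod,
          Fintype.card_bool, nsmul_eq_mul]
        push_cast
        rw [← mul_assoc, mul_comm t, pow_mul, ← mul_pow, ← mul_pow]
        exact mul_le_mul_of_nonneg_right (pow_le_of_le_one r0 (by nlinarith) (by omega))
          (by positivity)
    rw [Nat.card_Icc, Nat.add_sub_cancel, nsmul_eq_mul] at h2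
    have : (0 : ℝ) < (k ^ d) ^ (2 * n) := by positivity
    nlinarith
  refine ⟨fun a => univ.image fun i => (i, f a i), fun a => card_image_le.trans (by simp),
    fun e => ?_⟩
  obtain ⟨κ, h1, h2⟩ := (all_card_le_biUnion_card_iff_exists_injective fun s =>
    (univ.image fun i => (i, f (e (s, false)) i)) ∩ univ.image fun i => (i, f (e (s, true)) i)).mp
    fun L => not_lt.mp fun l => hf (by
      set T := L.biUnion fun s => (univ.image fun i => (i, f (e (s, false)) i)) ∩
        univ.image fun i => (i, f (e (s, true)) i)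
      let τ : Fin L.card → Fin d × Fin k := fun j =>
        if h : j < T.card then T.equivFin.symm ⟨j, h⟩ else (⟨0, d0⟩, ⟨0, k0⟩)
      simp only [mem_biUnion, mem_Icc, mem_univ, true_and]
      refine ⟨L.card, ⟨by omega, by simpa using card_le_univ L⟩,
        (fun p => e (L.equivFin.symm p.1, p.2), τ), ?_⟩
      simp only [E, mem_filter, mem_univ, true_and, mem_image]
      refine ⟨fun p p' h => ?_, fun s i h => ?_⟩
      · have := Prod.mk.inj (e.injective h)
        exact Prod.ext (L.equivFin.symm.injective (Subtype.ext this.1)) this.2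
      have m : (i, f (e (L.equivFin.symm s, false)) i) ∈ T :=
        mem_biUnion.mpr ⟨_, (L.equivFin.symm s).2, by simp [h]⟩
      exact ⟨⟨T.equivFin ⟨_, m⟩, (Fin.is_lt _).trans l⟩, by simp [τ]⟩)
  refine ⟨κ, h1, fun s β => ?_⟩
  cases β
  exacts [(mem_inter.mp (h2 s)).1, (mem_inter.mp (h2 s)).2]

end Pool.Agent.H.MP_7e7d68_co
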